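import Pool.Agent.U79.GY.Stm

/-!
# Project GY, package BOX (helper56): the moments of the number of elements of the kernel in a box

Adaptation of `Pool/Agent/U780/GX/BOX.lean` (helper780) and `Pool/Agent/U79/MO/BOXM.lean` (helper79);
the symbols are not symmetric any more, they satisfy the reciprocity law with the correction
`s4 p * s4 q`.
-/

set_option autoImplicit false
set_option linter.unusedVariables false

open scoped Classical

namespace Pool.Agent.U56.GY

open Finset hiding ext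
open Pool.Agent.U79.GY
open Pool.Agent.Y703.CQ (nr sg prs HB S_EQ ext)
open Pool.Agent.U439.GD (Lb lb nr_self sum_un HB_sub ez0 ez0_coe)
open Pool.Agent.U79.MO (SolA)
open Pool.Agent.U79.GX (Cr)
open Pool.Agent.U79.GD (glue glue_left glue_right)

/-- quadratic reciprocity -/
theorem nr_rec {p q : ℕ} (hp : p.Prime) (hp2 : p ≠ 2) (hq : q.Prime) (hq2 : q ≠ 2) (hpq : p ≠ q) :
    nr p q = nr q p + s4 p * s4 q := by
  have : Fact p.Prime := ⟨hp⟩
  have : Fact q.Prime := ⟨hq⟩
  have hp4 : p % 4 = 1 ∨ p % 4 = 3 := by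
    have := hp.eq_two_or_odd; omega
  have hq4 : q % 4 = 1 ∨ q % 4 = 3 := by
    have := hq.eq_two_or_odd; omega
  unfold nr s4
  rcases hp4 with h1 | h1
  · have h := ZMod.exists_sq_eq_prime_iff_of_mod_four_eq_one (p := p) (q := q) h1 hq2
    rw [if_neg (by omega : ¬ p % 4 = 3), zero_mul, add_zero]
    by_cases h2 : IsSquare (q : ZMod p)
    · rw [if_pos h2, if_pos (h.1 h2)]
    · rw [if_neg h2, if_neg (fun h3 => h2 (h.2 h3))]
  · rcases hq4 with h2 | h2
    · have h := ZMod.exists_sq_eq_prime_iff_of_mod_four_eq_one (p := q) (q := p) h2 hp2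
      rw [if_neg (by omega : ¬ q % 4 = 3), mul_zero, add_zero]
      by_cases h3 : IsSquare (q : ZMod p)
      · rw [if_pos h3, if_pos (h.2 h3)]
      · rw [if_neg h3, if_neg (fun h4 => h3 (h.1 h4))]
    · have h := ZMod.exists_sq_eq_prime_iff_of_mod_four_eq_three (p := p) (q := q) h1 h2 hpq
      rw [if_pos h1, if_pos h2]
      by_cases h3 : IsSquare (q : ZMod p)
      · rw [if_pos h3, if_neg (h.1 h3)]; decide
      · have h4 : IsSquare (p : ZMod q) := by
          by_contra h5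
          exact h3 (h.2 h5)
        rw [if_neg h3, if_pos h4]; decide

/-- the good labels -/
def LN (G : Cfg) {ι : Type} (S₀ : Finset ℕ) (J1 : Finset ι) (s : ι → ℕ) (β : ι → Lb S₀) : Prop :=
  ∀ (w : S₀ → ZMod 2) (ε : ZMod 2), (∃ u : S₀, Hc G (u : ℕ) ∧ w u ≠ 0) →
    ∃ i ∈ J1, ∑ u ∈ univ.filter (fun u : S₀ => Hc G (u : ℕ)), w u * (β i).2.1 u + ε * s4 (s i) ≠ 0

theorem sum_f (G : Cfg) (S₀ : Finset ℕ) (h : ℕ → ZMod 2) :
    ∑ u ∈ S₀.filter (fun u => Hc G u), h u =
      ∑ u ∈ univ.filter (fun u : S₀ => Hc G (u : ℕ)), h u := by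
  rw [Finset.sum_filter, Finset.sum_filter, ← Finset.sum_coe_sort S₀]

section one
variable {G : Cfg} {ι : Type} [Fintype ι] [LinearOrder ι] {J1 : Finset ι} {S₀ : Finset ℕ}
  {p : ι → ℕ} {s : ι → ℕ} (f : ℕ → ZMod 2)

omit [Fintype ι] [LinearOrder ι] in
theorem s4_eq (hs : ∀ i, p i % 4 = s i) (i : ι) : s4 (p i) = s4 (s i) := by
  unfold s4
  rw [← hs i, Nat.mod_mod]

omit [LinearOrder ι] in
theorem nd_iff (hJ : ∀ i, Hc G (p i) ↔ i ∈ J1) (hs : ∀ i, p i % 4 = s i) :
    Nd G S₀ (univ.image p) ↔ LN G S₀ J1 s (fun i => lb f S₀ (p i)) := by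
  unfold Nd LN
  constructor
  · intro h w ε hw
    obtain ⟨u, hu1, hu2⟩ := hw
    obtain ⟨x, hx, hx1, hx2⟩ := h (ez0 w) ε ⟨u, u.2, hu1, by rw [ez0_coe]; exact hu2⟩
    rw [Finset.mem_image] at hx
    obtain ⟨i, -, rfl⟩ := hx
    refine ⟨i, (hJ i).1 hx1, ?_⟩
    rw [sum_f, s4_eq hs] at hx2
    intro h0
    apply hx2
    rw [← h0]
    congr 1
    refine Finset.sum_congr rfl fun u _ => ?_
    rw [ez0_coe]
    rfl
  · intro h w ε hw
    obtain ⟨u, hu0, hu1, hu2⟩ := hw
    obtain ⟨i, hi, hi2⟩ := h (fun u => w u) ε ⟨⟨u, hu0⟩, hu1, hu2⟩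
    refine ⟨p i, Finset.mem_image_of_mem _ (Finset.mem_univ _), (hJ i).2 hi, ?_⟩
    rw [sum_f, s4_eq hs]
    exact hi2

/-- the correction -/
noncomputable def cor (J1 : Finset ι) (s : ι → ℕ) (k l : ι) : ZMod 2 :=
  if (k, l) ∈ prs J1 ∨ l = k then 0 else s4 (s k) * s4 (s l)

theorem ext_sum (hp : Function.Injective p) (hpr : ∀ i, (p i).Prime ∧ p i ≠ 2)
    (hs : ∀ i, p i % 4 = s i)
    (k : ι) (hk : k ∈ J1) (y : ι → ZMod 2) (yk : ZMod 2) :
    ∑ l, (ext (fun e : prs J1 => nr (p e.1.1) (p e.1.2)) k l + cor J1 s k l) * (y l + yk) =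
      ∑ l, nr (p k) (p l) * (y l + yk) := by
  refine Finset.sum_congr rfl fun l _ => ?_
  congr 1
  unfold Pool.Agent.Y703.CQ.ext cor
  by_cases h : (k, l) ∈ prs J1
  · rw [dif_pos h, if_pos (Or.inl h), add_zero]
  · rw [dif_neg h]
    by_cases hlk : l = k
    · subst hlk
      rw [dif_neg (fun h' => h h'.1), nr_self, if_pos (Or.inr rfl), add_zero]
    · have h1 : l ∈ J1 ∧ ¬ k < l := by
        by_contra hcon
        apply h
        unfold prs
        refine Finset.mem_filter.2 ⟨Finset.mem_univ _, hk, hlk, fun hl => ?_⟩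
        by_contra hkl
        exact hcon ⟨hl, hkl⟩
      have h2 : (l, k) ∈ prs J1 := by
        unfold prs
        exact Finset.mem_filter.2 ⟨Finset.mem_univ _, h1.1, fun h => hlk h.symm,
          fun _ => lt_of_le_of_ne (not_lt.1 h1.2) hlk⟩
      rw [dif_pos ⟨h2, hk⟩, if_neg (by
        rintro (h3 | h3)
        · exact h h3
        · exact hlk h3), ← s4_eq hs, ← s4_eq hs]
      exact (nr_rec (hpr k).1 (hpr k).2 (hpr l).1 (hpr l).2 (fun h3 => hlk (hp h3).symm)).symm

theorem sol_iff (hp : Function.Injective p) (hpr : ∀ i, (p i).Prime ∧ p i ≠ 2)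
    (hd : ∀ i, p i ∉ S₀) (hJ : ∀ i, Hc G (p i) ↔ i ∈ J1) (hs : ∀ i, p i % 4 = s i)
    (x : ℕ → ZMod 2) :
    SolP (Hc G) f (S₀ ∪ univ.image p) x ↔
      (∀ u ∈ univ.filter (fun u : S₀ => Hc G (u : ℕ)), ∑ v : S₀, nr u v * (x v + x u) +
        ∑ l, nr u (p l) * (x (p l) + x u) + f u * x u = 0) ∧
      (∀ k ∈ J1, ∑ u : S₀, nr (p k) u * (x u + x (p k)) +
        ∑ l, (ext (fun e : prs J1 => nr (p e.1.1) (p e.1.2)) k l + cor J1 s k l) *
          (x (p l) + x (p k)) + f (p k) * x (p k) = 0) := by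
  unfold SolP
  constructor
  · intro h
    refine ⟨fun u hu => ?_, fun k hk => ?_⟩
    · have := h u (Finset.mem_union_left _ u.2) (Finset.mem_filter.1 hu).2
      rw [sum_un hp hd] at this
      exact this
    · have := h (p k) (Finset.mem_union_right _ (Finset.mem_image_of_mem _ (Finset.mem_univ _)))
        ((hJ k).2 hk)
      rw [sum_un hp hd] at this
      rw [ext_sum hp hpr hs k hk (fun l => x (p l))]
      exact this
  · rintro ⟨h1, h2⟩ y hy hy1
    rw [sum_un hp hd]
    rw [Finset.mem_union, Finset.mem_image] at hy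
    rcases hy with hy | ⟨k, -, rfl⟩
    · exact h1 ⟨y, hy⟩ (Finset.mem_filter.2 ⟨Finset.mem_univ _, hy1⟩)
    · have hk := (hJ k).1 hy1
      have := h2 k hk
      rw [ext_sum hp hpr hs k hk (fun l => x (p l))] at this
      exact this

theorem nk_box (hp : Function.Injective p) (hpr : ∀ i, (p i).Prime ∧ p i ≠ 2)
    (hd : ∀ i, p i ∉ S₀) (hJ : ∀ i, Hc G (p i) ↔ i ∈ J1) (hs : ∀ i, p i % 4 = s i) :
    nk G f (S₀ ∪ univ.image p) = (univ.filter fun z : (S₀ → ZMod 2) × (ι → ZMod 2) =>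
      SolA (univ.filter fun u : S₀ => Hc G (u : ℕ)) J1
      (fun u v : S₀ => nr u v) (fun (u : S₀) l => nr u (p l)) (fun k (u : S₀) => nr (p k) u)
      (fun k l => ext (fun e : prs J1 => nr (p e.1.1) (p e.1.2)) k l + cor J1 s k l)
      (fun u : S₀ => f u) (fun k => f (p k)) z).card := by
  rw [← Fintype.card_subtype, ← Nat.card_eq_fintype_card]
  unfold nk nkP SolA
  have hsup : ∀ (c : S₀ → ZMod 2) (d : ι → ZMod 2),
      (∀ u, u ∉ univ.filter (fun u : S₀ => Hc G (u : ℕ)) → c u = 0) → (∀ l, l ∉ J1 → d l = 0) →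
      ∀ q, ¬ (q ∈ S₀ ∪ univ.image p ∧ Hc G q) → glue S₀ p c d q = 0 := by
    intro c d hc0 hd0 q hq
    by_cases h1 : q ∈ S₀
    · rw [show glue S₀ p c d q = c ⟨q, h1⟩ from glue_left c d ⟨q, h1⟩]
      exact hc0 _ fun hu => hq ⟨Finset.mem_union_left _ h1, (Finset.mem_filter.1 hu).2⟩
    · by_cases h2 : ∃ l, p l = q
      · obtain ⟨l, rfl⟩ := h2
        rw [glue_right hp hd]
        exact hd0 l fun hl => hq ⟨Finset.mem_union_right _
          (Finset.mem_image_of_mem _ (Finset.mem_univ _)), (hJ l).2 hl⟩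
      · unfold glue
        rw [dif_neg h1, dif_neg h2]
  refine Nat.card_congr
    { toFun := fun x => ⟨(fun u => x.1 u, fun l => x.1 (p l)), ?_, ?_, ?_, ?_⟩
      invFun := fun z => ⟨glue S₀ p z.1.1 z.1.2, ?_, ?_⟩
      left_inv := ?_
      right_inv := ?_ }
  · intro u hu
    exact x.2.1 _ fun h => hu (Finset.mem_filter.2 ⟨Finset.mem_univ _, h.2⟩)
  · intro l hl
    exact x.2.1 _ fun h => hl ((hJ l).1 h.2)
  · exact ((sol_iff f hp hpr hd hJ hs x.1).1 x.2.2).1
  · exact ((sol_iff f hp hpr hd hJ hs x.1).1 x.2.2).2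
  · exact hsup _ _ z.2.1 z.2.2.1
  · rw [sol_iff f hp hpr hd hJ hs]
    simp only [glue_left, glue_right hp hd]
    exact ⟨z.2.2.2.1, z.2.2.2.2⟩
  · intro x
    refine Subtype.ext (funext fun q => ?_)
    by_cases h1 : q ∈ S₀
    · exact glue_left _ _ (⟨q, h1⟩ : S₀)
    · by_cases h2 : ∃ l, p l = q
      · obtain ⟨l, rfl⟩ := h2
        exact glue_right hp hd _ _ l
      · have h3 : x.1 q = 0 := by
          refine x.2.1 q fun h => ?_
          rw [Finset.mem_union, Finset.mem_image] at h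
          rcases h.1 with h4 | ⟨l, -, h4⟩
          · exact h1 h4
          · exact h2 ⟨l, h4⟩
        show glue S₀ p _ _ q = x.1 q
        rw [h3]
        unfold glue
        rw [dif_neg h1, dif_neg h2]
  · intro z
    refine Subtype.ext (Prod.ext (funext fun u => ?_) (funext fun l => ?_))
    · exact glue_left _ _ u
    · exact glue_right hp hd _ _ l

end one

/-- the number of `r`-tuples with all members in a set -/
theorem card_tuples {Z : Type} [Fintype Z] (r : ℕ) (P : Z → Prop) :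
    ((univ.filter fun y : Fin r → Z => ∀ i, P (y i)).card : ℝ) = ((univ.filter P).card : ℝ) ^ r := by
  have h1 : (univ.filter fun y : Fin r → Z => ∀ i, P (y i)) =
      Fintype.piFinset fun _ : Fin r => univ.filter P := by
    ext y
    simp only [Finset.mem_filter, Finset.mem_univ, true_and, Fintype.mem_piFinset]
  rw [h1, Fintype.card_piFinset_const]
  push_cast
  rfl

theorem t_BOX : Pool.Agent.U79.GY.S_BOX := by
  intro hEQ hLA G f r ι _ _ J1 C X κ S₀ s hκ hCX hHB hS₀ hC hdis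
  set R : ℝ := 2 ^ (prs J1).card * (κ * ∏ j, (X j : ℝ)) with hR
  have hR0 : 0 ≤ R := mul_nonneg (by positivity)
    (mul_nonneg hκ (Finset.prod_nonneg fun j _ => by positivity))
  -- facts on tuples
  have hinj : ∀ p ∈ Fintype.piFinset C, Function.Injective p := by
    intro p hp i j hij
    rw [Fintype.mem_piFinset] at hp
    by_contra hne
    have h1 := Finset.disjoint_left.1 (hdis i j hne) (hp i)
    rw [hij] at h1
    exact h1 (hp j)
  have hJ : ∀ p ∈ Fintype.piFinset C, ∀ i, Hc G (p i) ↔ i ∈ J1 := by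
    intro p hp i
    rw [Fintype.mem_piFinset] at hp
    exact (hC i _ (hp i)).2.2.2.1.symm
  have hs4 : ∀ p ∈ Fintype.piFinset C, ∀ i, p i % 4 = s i := by
    intro p hp i
    rw [Fintype.mem_piFinset] at hp
    exact (hC i _ (hp i)).2.2.2.2
  have hd : ∀ p ∈ Fintype.piFinset C, ∀ i, p i ∉ S₀ := by
    intro p hp i
    rw [Fintype.mem_piFinset] at hp
    exact (hC i _ (hp i)).2.2.1
  have hpr : ∀ p ∈ Fintype.piFinset C, ∀ i, (p i).Prime ∧ p i ≠ 2 := by
    intro p hp i
    rw [Fintype.mem_piFinset] at hp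
    exact ⟨(hC i _ (hp i)).1, (hC i _ (hp i)).2.1⟩
  have hnz : Fintype.card ((S₀ → ZMod 2) × (ι → ZMod 2)) = 2 ^ (S₀.card + Fintype.card ι) := by
    rw [Fintype.card_prod, Fintype.card_fun, Fintype.card_fun, ZMod.card, Fintype.card_coe, pow_add]
  have hnzr : Fintype.card (Fin r → (S₀ → ZMod 2) × (ι → ZMod 2)) =
      2 ^ (r * (S₀.card + Fintype.card ι)) := by
    rw [Fintype.card_fun, hnz, Fintype.card_fin, ← pow_mul, mul_comm]
  have hCr : 0 ≤ Cr r := by
    unfold Cr
    positivity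
  -- the part with given labels
  have h1 : ∀ β : ι → Lb S₀,
      ∑ p ∈ (Fintype.piFinset C).filter (fun p => (fun i => lb f S₀ (p i)) = β),
        (nk G f (S₀ ∪ univ.image p) : ℝ) ^ r ≤
      Cr r * ∑ p ∈ (Fintype.piFinset C).filter (fun p => (fun i => lb f S₀ (p i)) = β),
        wt G r S₀ (univ.image p) + 2 ^ (r * (S₀.card + Fintype.card ι)) * R := by
    intro β
    by_cases hemp : ((Fintype.piFinset C).filter fun p => (fun i => lb f S₀ (p i)) = β) = ∅
    · rw [hemp, Finset.sum_empty, Finset.sum_empty]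
      positivity
    obtain ⟨p₀, hp₀⟩ := Finset.nonempty_iff_ne_empty.2 hemp
    rw [Finset.mem_filter] at hp₀
    obtain ⟨hp₀, hp₀β⟩ := hp₀
    set C' : ι → Finset ℕ := fun i => (C i).filter fun q => lb f S₀ q = β i with hC'
    have hpi : (Fintype.piFinset C).filter (fun p => (fun i => lb f S₀ (p i)) = β) =
        Fintype.piFinset C' := by
      ext p
      simp only [Finset.mem_filter, Fintype.mem_piFinset, hC']
      constructor
      · rintro ⟨h2, h3⟩ i
        exact ⟨h2 i, congrFun h3 i⟩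
      · intro h2
        exact ⟨fun i => (h2 i).1, funext fun i => (h2 i).2⟩
    set Q : (S₀ → ZMod 2) × (ι → ZMod 2) → (prs J1 → ZMod 2) → Prop := fun z α =>
      SolA (univ.filter fun u : S₀ => Hc G (u : ℕ))
      J1 (fun u v : S₀ => nr u v) (fun (u : S₀) l => (β l).1 u) (fun k (u : S₀) => (β k).2.1 u)
      (fun k l => ext α k l + cor J1 s k l) (fun u : S₀ => f u) (fun k => (β k).2.2) z with hQ
    -- the weight
    set w : ℝ := if LN G S₀ J1 s β ∧ ∃ i, i ∉ J1 then 1 else (2 ^ (S₀.card + 1)) ^ r with hw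
    have hwt : ∀ p ∈ Fintype.piFinset C', wt G r S₀ (univ.image p) = w := by
      intro p hp
      rw [← hpi, Finset.mem_filter] at hp
      obtain ⟨hp, hl⟩ := hp
      have h2 : Nd G S₀ (univ.image p) ↔ LN G S₀ J1 s β := by
        rw [nd_iff f (hJ p hp) (hs4 p hp), hl]
      have h3 : (∃ q ∈ univ.image p, ¬ Hc G q) ↔ ∃ i, i ∉ J1 := by
        constructor
        · rintro ⟨q, hq, hq2⟩
          rw [Finset.mem_image] at hq
          obtain ⟨i, -, rfl⟩ := hq
          exact ⟨i, fun hi => hq2 ((hJ p hp i).2 hi)⟩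
        · rintro ⟨i, hi⟩
          exact ⟨p i, Finset.mem_image_of_mem _ (Finset.mem_univ _), fun h => hi ((hJ p hp i).1 h)⟩
      unfold wt
      rw [hw]
      simp only [h2, h3]
    have h2 : ∑ α : prs J1 → ZMod 2, ((univ.filter fun z => Q z α).card : ℝ) ^ r ≤
        w * (Cr r * 2 ^ (prs J1).card) := by
      obtain ⟨hLA1, hLA2⟩ := hLA r S₀ ι (univ.filter fun u : S₀ => Hc G (u : ℕ)) J1
        (fun u v => nr u v) (fun u l => (β l).1 u) (fun k u => (β k).2.1 u) (cor J1 s) (fun u => f u)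
        (fun k => (β k).2.2)
      by_cases hc : LN G S₀ J1 s β ∧ ∃ i, i ∉ J1
      · rw [hw, if_pos hc, one_mul]
        obtain ⟨hβ, hne⟩ := hc
        have hred : ∀ v : S₀ → ZMod 2, (∀ u, u ∉ (univ.filter fun u : S₀ => Hc G (u : ℕ)) →
            v u = 0) → ∀ g : S₀ → ZMod 2,
            ∑ u ∈ univ.filter (fun u : S₀ => Hc G (u : ℕ)), v u * g u = ∑ u, v u * g u := by
          intro v hv g
          rw [Finset.sum_filter]
          refine Finset.sum_congr rfl fun v' _ => ?_
          split_ifs with h8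
          · rfl
          · rw [hv v' fun hv => h8 (Finset.mem_filter.1 hv).2, zero_mul]
        have hC' : ∀ w : S₀ → ZMod 2, (∀ u, u ∉ (univ.filter fun u : S₀ => Hc G (u : ℕ)) →
            w u = 0) → (∃ u, w u ≠ 0) → ∃ k ∈ J1, ∑ u, w u * (β k).2.1 u ≠ 0 := by
          rintro v hw0 ⟨u, hu⟩
          have hu8 : Hc G (u : ℕ) := by
            by_contra h8
            exact hu (hw0 u fun hu' => h8 (Finset.mem_filter.1 hu').2)
          obtain ⟨k, hk, hk2⟩ := hβ v 0 ⟨u, hu8, hu⟩
          refine ⟨k, hk, ?_⟩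
          rw [zero_mul, add_zero, hred v hw0] at hk2
          exact hk2
        have hB' : ∀ w : S₀ → ZMod 2, (∀ u, u ∉ (univ.filter fun u : S₀ => Hc G (u : ℕ)) →
            w u = 0) → (∃ u, w u ≠ 0) → ∃ k ∈ J1, ∑ u, w u * (β k).1 u ≠ 0 := by
          rintro v hw0 ⟨u, hu⟩
          have hu8 : Hc G (u : ℕ) := by
            by_contra h8
            exact hu (hw0 u fun hu' => h8 (Finset.mem_filter.1 hu').2)
          obtain ⟨k, hk, hk2⟩ := hβ v (∑ u : S₀, v u * s4 u) ⟨u, hu8, hu⟩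
          refine ⟨k, hk, ?_⟩
          rw [hred v hw0] at hk2
          intro h0
          apply hk2
          rw [← h0, Finset.sum_mul, ← Finset.sum_add_distrib]
          refine Finset.sum_congr rfl fun u' _ => ?_
          have h3 := congrFun hp₀β k
          rw [← h3]
          have h4 : nr u' (p₀ k) = nr (p₀ k) u' + s4 u' * s4 (p₀ k) :=
            nr_rec (hS₀ u' u'.2).1 (hS₀ u' u'.2).2 (hpr p₀ hp₀ k).1 (hpr p₀ hp₀ k).2
              (fun h5 => hd p₀ hp₀ k (h5 ▸ u'.2))
          have h6 : s4 (s k) = s4 (p₀ k) := (s4_eq (hs4 p₀ hp₀) k).symm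
          show v u' * nr (p₀ k) u' + v u' * s4 u' * s4 (s k) = v u' * nr u' (p₀ k)
          rw [h4, h6]
          ring
        refine le_of_eq_of_le ?_ (hLA1 hne hB' hC')
        refine Finset.sum_congr rfl fun α _ =>
          congrArg (fun n : ℕ => (n : ℝ) ^ r) (congrArg Finset.card (Finset.ext fun z => ?_))
        simp only [Finset.mem_filter, Finset.mem_univ, true_and]
        rfl
      · rw [hw, if_neg hc]
        rw [Fintype.card_coe] at hLA2
        refine le_of_eq_of_le ?_ hLA2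
        refine Finset.sum_congr rfl fun α _ =>
          congrArg (fun n : ℕ => (n : ℝ) ^ r) (congrArg Finset.card (Finset.ext fun z => ?_))
        simp only [Finset.mem_filter, Finset.mem_univ, true_and]
        rfl
    set QQ : (Fin r → (S₀ → ZMod 2) × (ι → ZMod 2)) → (prs J1 → ZMod 2) → Prop :=
      fun y α => ∀ i, Q (y i) α with hQQ
    have h3 := fun y => hEQ ι J1 C' X κ hκ
      (fun i => (Finset.card_le_card (Finset.filter_subset _ _)).trans (hCX i))
      (HB_sub hHB fun i q => lb f S₀ q = β i) (QQ y)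
    have h5 : (((Fintype.piFinset C').card : ℕ) : ℝ) = ∏ j, ((C' j).card : ℝ) := by
      rw [Fintype.card_piFinset]
      push_cast
      rfl
    set P : ℝ := ∏ j, ((C' j).card : ℝ) with hP
    have hP0 : 0 ≤ P := Finset.prod_nonneg fun j _ => by positivity
    rw [hpi, Finset.sum_congr rfl hwt, Finset.sum_const, nsmul_eq_mul, h5]
    -- the sum over the tuples
    have h4 : ∀ p ∈ Fintype.piFinset C', (nk G f (S₀ ∪ univ.image p) : ℝ) ^ r =
        ∑ y : Fin r → (S₀ → ZMod 2) × (ι → ZMod 2),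
          if QQ y (fun e => nr (p e.1.1) (p e.1.2)) then (1 : ℝ) else 0 := by
      intro p hp
      rw [← hpi, Finset.mem_filter] at hp
      obtain ⟨hp, hl⟩ := hp
      rw [nk_box f (hinj p hp) (hpr p hp) (hd p hp) (hJ p hp) (hs4 p hp), Finset.sum_boole, ← card_tuples]
      subst hl
      rfl
    rw [Finset.sum_congr rfl h4, Finset.sum_comm]
    have h6 : ∀ y : Fin r → (S₀ → ZMod 2) × (ι → ZMod 2), ∑ p ∈ Fintype.piFinset C',
        (if QQ y (fun e => nr (p e.1.1) (p e.1.2)) then (1 : ℝ) else 0) ≤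
        ((univ.filter (QQ y)).card : ℝ) / 2 ^ (prs J1).card * P + R := by
      intro y
      rw [Finset.sum_boole]
      have h7 := (abs_sub_le_iff.1 (h3 y)).1
      rw [sub_le_iff_le_add'] at h7
      refine (le_of_eq_of_le (congrArg (fun n : ℕ => (n : ℝ))
        (congrArg Finset.card (Finset.ext fun α => ?_))) h7).trans (le_of_eq ?_)
      · simp only [Finset.mem_filter]
      · rw [hR]
        congr!
    refine (Finset.sum_le_sum fun y _ => h6 y).trans ?_
    rw [Finset.sum_add_distrib, Finset.sum_const, Finset.card_univ, hnzr, nsmul_eq_mul,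
      ← Finset.sum_mul, ← Finset.sum_div]
    have h8 : (∑ y, ((univ.filter (QQ y)).card : ℝ)) =
        ∑ α : prs J1 → ZMod 2, ((univ.filter fun z => Q z α).card : ℝ) ^ r := by
      have e1 : ∀ y, ((univ.filter (QQ y)).card : ℝ) =
          ∑ α : prs J1 → ZMod 2, if QQ y α then (1 : ℝ) else 0 := fun y => by
        rw [Finset.sum_boole]
      have e2 : ∀ α : prs J1 → ZMod 2, ((univ.filter fun z => Q z α).card : ℝ) ^ r =
          ∑ y, if QQ y α then (1 : ℝ) else 0 := fun α => by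
        rw [Finset.sum_boole, ← card_tuples]
      simp only [e1, e2]
      exact Finset.sum_comm
    have h7 : (∑ y, ((univ.filter (QQ y)).card : ℝ)) / 2 ^ (prs J1).card ≤ w * Cr r := by
      rw [div_le_iff₀ (by positivity), h8, mul_assoc]
      exact h2
    have h9 := mul_le_mul_of_nonneg_right h7 hP0
    push_cast
    have h10 : Cr r * (P * w) = w * Cr r * P := by ring
    rw [h10]
    linarith
  -- sum over the labels
  have hfib : ∀ T : (ι → ℕ) → ℝ, ∑ p ∈ Fintype.piFinset C, T p =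
      ∑ β : ι → Lb S₀, ∑ p ∈ (Fintype.piFinset C).filter (fun p => (fun i => lb f S₀ (p i)) = β),
        T p := by
    intro T
    rw [← Finset.sum_fiberwise_of_maps_to (g := fun (p : ι → ℕ) (i : ι) => lb f S₀ (p i))
      (t := (Finset.univ : Finset (ι → Lb S₀))) (fun p _ => Finset.mem_univ _)]
  rw [hfib, hfib fun p => wt G r S₀ (univ.image p), Finset.mul_sum]
  refine (Finset.sum_le_sum fun β _ => h1 β).trans ?_
  rw [Finset.sum_add_distrib, Finset.sum_const, nsmul_eq_mul]
  have h5 : (((Finset.univ : Finset (ι → Lb S₀)).card : ℕ) : ℝ) ≤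
      2 ^ ((2 * S₀.card + 1) * Fintype.card ι) := by
    have h6 : (Finset.univ : Finset (ι → Lb S₀)).card ≤ Fintype.card (ι → Lb S₀) :=
      Finset.card_le_univ _
    rw [Fintype.card_fun, Fintype.card_prod, Fintype.card_prod, Fintype.card_fun, ZMod.card,
      Fintype.card_coe, ← pow_succ, ← pow_add, ← pow_mul] at h6
    have h7 : (S₀.card + (S₀.card + 1)) * Fintype.card ι = (2 * S₀.card + 1) * Fintype.card ι := by
      ring
    rw [h7] at h6
    exact_mod_cast h6
  have h6 : 0 ≤ (2 : ℝ) ^ (r * (S₀.card + Fintype.card ι)) * R := by positivity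
  have h7 := mul_le_mul_of_nonneg_right h5 h6
  have h8 : (2 : ℝ) ^ ((2 * S₀.card + 1) * Fintype.card ι + (prs J1).card +
      r * (S₀.card + Fintype.card ι)) * (κ * ∏ j, (X j : ℝ)) =
      2 ^ ((2 * S₀.card + 1) * Fintype.card ι) *
        (2 ^ (r * (S₀.card + Fintype.card ι)) * R) := by
    rw [hR, pow_add, pow_add]
    ring
  rw [h8]
  linarith

end Pool.Agent.U56.GY
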